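import Mathlib
import Pool.Agent.Lib.helper4.Ramsey
import Pool.Agent.H.MP_75f2a2_co.A

set_option autoImplicit false

namespace Pool.Agent.Results.MP_75f2a2_co.Yes

open Pool.Agent.H.MP_75f2a2_co

/-- The closed axis-parallel cube of side 1 in `ℝ³` with lowest corner `p`. -/
def cube (p : Fin 3 → ℝ) : Set (Fin 3 → ℝ) := {y | ∀ c, p c ≤ y c ∧ y c ≤ p c + 1}

/-- The intersection graph of the family of unit cubes `cube (p v)`, `v : V`. -/
def cubeGraph {V : Type} (p : V → Fin 3 → ℝ) : SimpleGraph V where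
  Adj u v := u ≠ v ∧ (cube (p u) ∩ cube (p v)).Nonempty
  symm := ⟨fun _ _ h => ⟨h.1.symm, by rw [Set.inter_comm]; exact h.2⟩⟩
  loopless := ⟨fun _ h => h.1 rfl⟩

/-- The ball `N^r[v]` of the graph distance. -/
def ball {V : Type} (G : SimpleGraph V) (r : ℕ) (v : V) : Set V := {u | G.edist u v ≤ r}

/-- `S` is shattered by the family of balls `N^r[v]`, `v : V`. -/
def Shattered {V : Type} (G : SimpleGraph V) (r : ℕ) (S : Set V) : Prop :=
  ∀ T ⊆ S, ∃ v, ball G r v ∩ S = T

/-- equal or adjacent -/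
def Near {V : Type} (p : V → Fin 3 → ℝ) (u v : V) : Prop := ∀ c, |p u c - p v c| ≤ 1

theorem near_of_adj {V : Type} {p : V → Fin 3 → ℝ} {u v : V} (h : (cubeGraph p).Adj u v) :
    Near p u v := by
  obtain ⟨_, y, h1, h2⟩ := h
  intro c
  rw [abs_le]
  constructor <;> linarith [(h1 c).1, (h1 c).2, (h2 c).1, (h2 c).2]

theorem edist_near {V : Type} {p : V → Fin 3 → ℝ} {u v : V} (h : Near p u v) :
    (cubeGraph p).edist u v ≤ 1 := by
  by_cases huv : u = v
  · subst huv; simp
  · have : (cubeGraph p).Adj u v := by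
      refine ⟨huv, fun c => max (p u c) (p v c), fun c => ?_, fun c => ?_⟩
      · have := abs_le.mp (h c)
        exact ⟨le_max_left _ _, max_le (by linarith) (by linarith [this.1])⟩
      · have := abs_le.mp (h c)
        exact ⟨le_max_right _ _, max_le (by linarith [this.2]) (by linarith)⟩
    exact (SimpleGraph.edist_eq_one_iff_adj.mpr this).le

theorem exists_wire {V : Type} {p : V → Fin 3 → ℝ} {r : ℕ} {u v : V}
    (h : u ∈ ball (cubeGraph p) r v) :
    ∃ w : ℕ → V, w 0 = u ∧ w r = v ∧ ∀ t, Near p (w t) (w (t + 1)) := by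
  have h' : (cubeGraph p).edist u v ≤ r := h
  have hne : (cubeGraph p).edist u v ≠ ⊤ := ne_top_of_le_ne_top (ENat.coe_ne_top r) h'
  obtain ⟨q, hq⟩ := SimpleGraph.exists_walk_of_edist_ne_top hne
  rw [← hq] at h'
  have hl : q.length ≤ r := by exact_mod_cast h'
  refine ⟨q.getVert, q.getVert_zero, q.getVert_of_length_le hl, fun t => ?_⟩
  by_cases ht : t < q.length
  · exact near_of_adj (q.adj_getVert_succ ht)
  · rw [q.getVert_of_length_le (by omega), q.getVert_of_length_le (by omega)]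
    intro c; simp

theorem wire_edist {V : Type} {p : V → Fin 3 → ℝ} {w : ℕ → V}
    (hw : ∀ t, Near p (w t) (w (t + 1))) (s k : ℕ) :
    (cubeGraph p).edist (w s) (w (s + k)) ≤ k := by
  induction k with
  | zero => simp
  | succ k ih =>
    calc _ ≤ (cubeGraph p).edist (w s) (w (s + k)) +
          (cubeGraph p).edist (w (s + k)) (w (s + k + 1)) := SimpleGraph.edist_triangle
      _ ≤ k + 1 := add_le_add ih (edist_near (hw _))
      _ = _ := by push_cast; rfl

theorem wire_abs {V : Type} {p : V → Fin 3 → ℝ} {w : ℕ → V}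
    (hw : ∀ t, Near p (w t) (w (t + 1))) (k : ℕ) (c : Fin 3) :
    |p (w 0) c - p (w k) c| ≤ k := by
  induction k with
  | zero => simp
  | succ k ih =>
    have := abs_le.mp (hw k c)
    have := abs_le.mp ih
    rw [abs_le]; push_cast
    constructor <;> linarith

theorem cross {V : Type} {p : V → Fin 3 → ℝ} {r t : ℕ} {w w' : ℕ → V} (ht : t < r)
    (hw : ∀ t, Near p (w t) (w (t + 1))) (hw' : ∀ t, Near p (w' t) (w' (t + 1)))
    (h : Near p (w t) (w' (t + 1))) : w 0 ∈ ball (cubeGraph p) r (w' r) := by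
  obtain ⟨k, rfl⟩ : ∃ k, r = t + 1 + k := ⟨r - t - 1, by omega⟩
  have h1 := wire_edist hw 0 t
  rw [zero_add] at h1
  show (cubeGraph p).edist _ _ ≤ _
  calc _ ≤ (cubeGraph p).edist (w 0) (w t) + (cubeGraph p).edist (w t) (w' (t + 1 + k)) :=
        SimpleGraph.edist_triangle
    _ ≤ t + ((cubeGraph p).edist (w t) (w' (t + 1)) +
          (cubeGraph p).edist (w' (t + 1)) (w' (t + 1 + k))) :=
        add_le_add h1 SimpleGraph.edist_triangle
    _ ≤ t + (1 + k) := add_le_add le_rfl (add_le_add (edist_near h) (wire_edist hw' _ _))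
    _ = _ := by push_cast; ring

def rw (i : Fin 3) : Fin 8 := ⟨i, by omega⟩
def cl (j : Fin 3) : Fin 8 := ⟨4 + j, by omega⟩
def pr (α : Fin 2) : Fin 4 := ⟨α, by omega⟩
def pc (α : Fin 2) : Fin 4 := ⟨2 + α, by omega⟩

def tau (i i' j j' : Fin 3) : Fin 4 → Fin 8 :=
  ![rw (min i i'), if i = i' then 3 else rw (max i i'), cl (min j j'),
    if j = j' then 7 else cl (max j j')]

theorem tau_mono (i i' j j' : Fin 3) : StrictMono (tau i i' j j') := by
  unfold StrictMono; revert i i' j j'; decide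

theorem tau_eq (i i' j j' : Fin 3) : tau i i' j j' (pr (al i i')) = rw i ∧
    tau i i' j j' (pr (al i' i)) = rw i' ∧ tau i i' j j' (pc (al j j')) = cl j ∧
    tau i i' j j' (pc (al j' j)) = cl j' := by
  revert i i' j j'; decide

abbrev Ix (r : ℕ) : Type :=
  (Bool × Fin (r + 1) × Fin 3 × Bool × Fin 2 × Fin 2 × Fin 2 × Fin 2) ⊕
  (Bool × Fin (r + 1) × Fin 3 × Fin (4 * r + 3)) ⊕ (Bool × Fin 3)

def sg (s : Bool) : ℝ := if s then 1 else -1

/-- the colouring of quadruples -/
def col {V : Type} (r : ℕ) (p : V → Fin 3 → ℝ) (v0 : V) (w : Bool → V → V → ℕ → V)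
    (g : Fin 4 → V) : Ix r → Prop
  | Sum.inl (b, t, c, s, α, β, γ, δ) =>
      sg s * p (w b (g (pr α)) (g (pc β)) t) c + 1 <
        sg s * p (w b (g (pr γ)) (g (pc δ)) (t + 1)) c
  | Sum.inr (Sum.inl (b, t, c, k)) =>
      ⌊p (w b (g (pr 0)) (g (pc 0)) t) c⌋ = ⌊p v0 c⌋ + (k : ℕ) - (2 * r + 1 : ℕ)
  | Sum.inr (Sum.inr (b, c)) =>
      if b then p (g (pr 0)) c ≤ p (g (pr 1)) c else p (g (pc 0)) c ≤ p (g (pc 1)) c

theorem wk_of {z : Fin 3 → ℝ} (h : ∀ i i' k k' : Fin 3, i < i' → k < k' → z i ≤ z i' → z k ≤ z k') :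
    Wk fun i _ => z i := by
  by_cases h0 : z 0 ≤ z 1
  · exact Or.inl fun i i' _ _ hi => h 0 1 i i' (by decide) hi h0
  · exact Or.inr fun i i' _ _ hi => le_of_not_ge fun h1 => h0 (h i i' 0 1 hi (by decide) h1)

/-- For every radius `r` the `r`-balls of unit-cube graphs in `ℝ³` have VC-dimension bounded in
terms of `r` alone. -/
theorem result : ∃ f : ℕ → ℕ, ∀ (r : ℕ) (V : Type) [Fintype V] (p : V → Fin 3 → ℝ)
    (S : Finset V), Shattered (cubeGraph p) r (S : Set V) → S.card ≤ f r := by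
  classical
  choose M hM using fun r => Pool.Agent.Lib.helper4.Ramsey.ram (Ix r → Prop) 4 8
  refine ⟨M, fun r V _ p S hS => ?_⟩
  by_contra hlt
  letI : LinearOrder V := LinearOrder.lift' (Fintype.equivFin V) (Fintype.equivFin V).injective
  obtain ⟨v0, hv0⟩ := hS S subset_rfl
  have hq : ∀ a b : V, ∃ q, a ∈ S → b ∈ S → ball (cubeGraph p) r q ∩ S = {a, b} := by
    intro a b
    by_cases h : a ∈ S ∧ b ∈ S
    · obtain ⟨q, hq⟩ := hS {a, b} (by
        rintro x (rfl | rfl)
        · exact h.1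
        · exact h.2)
      exact ⟨q, fun _ _ => hq⟩
    · exact ⟨a, fun h1 h2 => absurd ⟨h1, h2⟩ h⟩
  choose q hq using hq
  have hw : ∀ (s : Bool) (a b : V), ∃ w : ℕ → V, a ∈ S → b ∈ S →
      w 0 = (if s then a else b) ∧ w r = q a b ∧ ∀ t, Near p (w t) (w (t + 1)) := by
    intro s a b
    by_cases h : a ∈ S ∧ b ∈ S
    · have : (if s then a else b) ∈ ball (cubeGraph p) r (q a b) ∩ S := by
        rw [hq a b h.1 h.2]; cases s <;> simp
      obtain ⟨w, hw⟩ := exists_wire this.1
      exact ⟨w, fun _ _ => hw⟩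
    · exact ⟨fun _ => a, fun h1 h2 => absurd ⟨h1, h2⟩ h⟩
  choose w hw using hw
  obtain ⟨Y, hYS, hYc, hY⟩ := hM r V S (le_of_not_ge hlt) (col r p v0 w)
  set y := Y.orderEmbOfFin hYc with hy
  have hyS : ∀ i, y i ∈ S := fun i => hYS (Y.orderEmbOfFin_mem hYc i)
  have H : ∀ i i' j j' k k' l l', col r p v0 w (y ∘ tau i i' j j') =
      col r p v0 w (y ∘ tau k k' l l') := fun i i' j j' k k' l l' =>
    hY _ _ (y.strictMono.comp (tau_mono _ _ _ _)) (y.strictMono.comp (tau_mono _ _ _ _))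
      (fun _ => Y.orderEmbOfFin_mem hYc _) (fun _ => Y.orderEmbOfFin_mem hYc _)
  have hW := fun s i j => hw s (y (rw i)) (y (cl j)) (hyS _) (hyS _)
  have hrc : ∀ i j, rw i ≠ cl j := by decide
  have hrr : ∀ i j, rw i = rw j → i = j := by decide
  have hcc : ∀ i j, cl i = cl j → i = j := by decide
  have hr : 0 < r := by
    by_contra h0
    obtain rfl : r = 0 := by omega
    have h1 := hW true 0 0
    have h2 := hW false 0 0
    simp only [if_true, Bool.false_eq_true, if_false] at h1 h2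
    exact hrc 0 0 (y.injective (h1.1.symm.trans (h1.2.1.trans (h2.2.1.symm.trans h2.1))))
  have hsep : ∀ s, ∀ t < r, ∀ i j i' j', Near p (w s (y (rw i)) (y (cl j)) t)
      (w s (y (rw i')) (y (cl j')) (t + 1)) → if s then i = i' else j = j' := by
    intro s t ht i j i' j' h
    have h1 := cross ht (hW s i j).2.2 (hW s i' j').2.2 h
    rw [(hW s i j).1, (hW s i' j').2.1] at h1
    have h2 : (if s then y (rw i) else y (cl j)) ∈ ({y (rw i'), y (cl j')} : Set V) := by
      rw [← hq _ _ (hyS _) (hyS _)]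
      refine ⟨h1, ?_⟩
      cases s
      · exact hyS _
      · exact hyS _
    cases s
    · rcases h2 with h2 | h2
      · exact absurd (y.injective h2).symm (hrc _ _)
      · exact hcc _ _ (y.injective h2)
    · rcases h2 with h2 | h2
      · exact hrr _ _ (y.injective h2)
      · exact absurd (y.injective h2) (hrc _ _)
  have hcell : ∀ s, ∀ t ≤ r, ∀ c i j i' j', ⌊p (w s (y (rw i)) (y (cl j)) t) c⌋ =
      ⌊p (w s (y (rw i')) (y (cl j')) t) c⌋ := by
    intro s t ht c i j i' j'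
    have h1 := wire_abs (hW s i j).2.2 t c
    have hm : w s (y (rw i)) (y (cl j)) 0 ∈ ball (cubeGraph p) r v0 := by
      have : w s (y (rw i)) (y (cl j)) 0 ∈ (S : Set V) := by
        rw [(hW s i j).1]
        cases s
        · exact hyS _
        · exact hyS _
      rw [← hv0] at this
      exact this.1
    obtain ⟨u, hu0, hur, hu⟩ := exists_wire hm
    have h2 := wire_abs hu r c
    rw [hu0, hur] at h2
    have ht' : (t : ℝ) ≤ r := by exact_mod_cast ht
    set a := p (w s (y (rw i)) (y (cl j)) t) c with ha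
    have h3 : ⌊p v0 c⌋ - (2 * r + 1 : ℕ) ≤ ⌊a⌋ := by
      rw [Int.le_floor]; push_cast
      linarith [Int.floor_le (p v0 c), (abs_le.mp h1).2, (abs_le.mp h2).1]
    have h4 : ⌊a⌋ < ⌊p v0 c⌋ + (2 * r + 2 : ℕ) := by
      rw [Int.floor_lt]; push_cast
      linarith [Int.lt_floor_add_one (p v0 c), (abs_le.mp h1).1, (abs_le.mp h2).2]
    have h5 := congrFun (H i i j j i' i' j' j') (Sum.inr (Sum.inl (s, ⟨t, by omega⟩, c,
      ⟨(⌊a⌋ - ⌊p v0 c⌋ + (2 * r + 1 : ℕ)).toNat, by omega⟩)))
    have e1 := tau_eq i i j j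
    have e2 := tau_eq i' i' j' j'
    simp only [al, le_refl, if_true] at e1 e2
    simp only [col, Function.comp, e1.1, e1.2.2.1, e2.1, e2.2.2.1] at h5
    have h6 := h5.mp (by rw [← ha]; omega)
    omega
  have hhom : ∀ b, ∀ t < r, ∀ (c : Fin 3) (s : ℝ), s = 1 ∨ s = -1 → Hom fun i j i' j' =>
      s * p (w b (y (rw i)) (y (cl j)) t) c + 1 <
        s * p (w b (y (rw i')) (y (cl j')) (t + 1)) c := by
    intro b t ht c s hs i j i' j' k l k' l' a1 a2 a3 a4 h
    obtain ⟨σ, rfl⟩ : ∃ σ, s = sg σ := by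
      rcases hs with rfl | rfl
      · exact ⟨true, rfl⟩
      · exact ⟨false, rfl⟩
    have h5 := congrFun (H i i' j j' k k' l l')
      (Sum.inl (b, ⟨t, by omega⟩, c, σ, al i i', al j j', al i' i, al j' j))
    have e1 := tau_eq i i' j j'
    have e2 := tau_eq k k' l l'
    rw [← a1, ← a2, ← a3, ← a4] at e2
    simp only [col, Function.comp, e1.1, e1.2.1, e1.2.2.1, e1.2.2.2, e2.1, e2.2.1, e2.2.2.1,
      e2.2.2.2] at h5
    exact h5.mp h
  have a01 : ∀ i i' : Fin 3, i < i' → al i i' = 0 ∧ al i' i = 1 := by decide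
  have T1 := chain hr (x := fun t c i j => p (w true (y (rw i)) (y (cl j)) t) c)
    (fun t c i j => (hW true i j).2.2 t c) (hcell true) (hhom true)
    (fun t ht i j i' j' hi h => hi (by simpa using hsep true t ht i j i' j' h))
    (fun c => by
      simp only [fun i j => (hW true i j).1, if_true]
      refine wk_of fun i i' k k' hi hk h => ?_
      have h5 := congrFun (H i i' 0 0 k k' 0 0) (Sum.inr (Sum.inr (true, c)))
      have e1 := tau_eq i i' 0 0
      have e2 := tau_eq k k' 0 0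
      rw [(a01 _ _ hi).1, (a01 _ _ hi).2] at e1
      rw [(a01 _ _ hk).1, (a01 _ _ hk).2] at e2
      simp only [col, Function.comp, e1.1, e1.2.1, e2.1, e2.2.1, if_true] at h5
      exact h5.mp h)
  have T2 := chain hr (x := fun t c j i => p (w false (y (rw i)) (y (cl j)) t) c)
    (fun t c j i => (hW false i j).2.2 t c)
    (fun t ht c j i j' i' => hcell false t ht c i j i' j')
    (fun t ht c s hs j i j' i' l k l' k' a1 a2 a3 a4 h =>
      hhom false t ht c s hs i j i' j' k l k' l' a3 a4 a1 a2 h)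
    (fun t ht j i j' i' hi h => hi (by simpa using hsep false t ht i j i' j' h))
    (fun c => by
      simp only [fun i j => (hW false i j).1, Bool.false_eq_true, if_false]
      refine wk_of fun i i' k k' hi hk h => ?_
      have h5 := congrFun (H 0 0 i i' 0 0 k k') (Sum.inr (Sum.inr (false, c)))
      have e1 := tau_eq 0 0 i i'
      have e2 := tau_eq 0 0 k k'
      rw [(a01 _ _ hi).1, (a01 _ _ hi).2] at e1
      rw [(a01 _ _ hk).1, (a01 _ _ hk).2] at e2
      simp only [col, Function.comp, e1.2.2.1, e1.2.2.2, e2.2.2.1, e2.2.2.2, Bool.false_eq_true,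
        if_false] at h5
      exact h5.mp h)
  simp only [fun s i j => (hW s i j).2.1] at T1 T2
  exact clash (q := fun c i j => p (q (y (rw i)) (y (cl j))) c) T1 T2

end Pool.Agent.Results.MP_75f2a2_co.Yes
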